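import Mathlib
import Pool.Agent.V11270.CZ.Erg
import Pool.Agent.V11270.CZ.Unit

set_option autoImplicit false

/-!
# Ergodic theorems along the basins of the cycles of the 3x+1 map

Let `S` be a set of integers which is invariant under the 3x+1 map and its inverse, for example the
basin of a cycle, with density `ρ` among the integers of sign `s`.

For commuting invertible measure preserving transformations `T_1, ..., T_k` of a probability space and
bounded functions `f_1, ..., f_k` the averages over `n ≤ N` of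
`(1_S(s n) - ρ) f_1(T_1^n x) ... f_k(T_k^n x)` tend to `0` in `L ^ 2`, uniformly in the set `S`, the
probability space, the transformations and the functions. So every convergence or recurrence theorem
for multiple ergodic averages of commuting transformations, in particular the theorem of Tao, holds
for the averages over the basin, with the same limit.

For unitary operators `U` and integer polynomials `P` of bounded degree the averages of
`(1_S(s n) - ρ) U ^ P(n)` tend to `0` in the operator norm, uniformly in `S`, `U`, `P`; the mean ergodic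
theorem holds along the basin.

All cycles are known if for both signs there are, for infinitely many `N`, commuting transformations
and functions for which the average over the union of the basins of the unknown cycles is `o(1)` and
the average over all integers is not.

Method. The `L ^ 2` norm of weighted averages is bounded by the Gowers norm of order `k + 1` of the
weights; then the starting file `GowersNorms` of MP_2d22f3_nt applies. For the operators: its
orthogonality to polynomial phases, and the continuous functional calculus.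
-/

namespace Pool.Agent.Results.MP_edb5be_nt.ErgodicAverages

open Filter Topology MeasureTheory

/-- The 3x+1 map on the integers. -/
def T (x : ℤ) : ℤ := if x % 2 = 0 then x / 2 else (3 * x + 1) / 2

/-- `S` is invariant under `T` and its inverse, for example the set of the integers whose trajectory
enters a given cycle. -/
def Invariant (S : Set ℤ) : Prop := ∀ x : ℤ, x ∈ S ↔ T x ∈ S

/-- Among the integers of sign `s` the set `S` has natural density `δ`. -/
def HasDensity (s : ℤ) (S : Set ℤ) (δ : ℝ) : Prop :=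
  Tendsto (fun N : ℕ => ({n : ℤ | 0 < s * n ∧ s * n ≤ N ∧ n ∈ S}.ncard : ℝ) / N) atTop (𝓝 δ)

/-- `act` is an action of the commutative group `G` on `X` by transformations which preserve `μ`. -/
def PreservingAction {G X : Type} [AddCommGroup G] [MeasurableSpace X] (μ : Measure X)
    (act : G → X → X) : Prop :=
  (∀ a, MeasurePreserving (act a) μ μ) ∧ ∀ a b x, act (a + b) x = act a (act b x)

/-- The indicator function of `S` at `s n`. -/
noncomputable def ind (s : ℤ) (S : Set ℤ) (n : ℕ) : ℝ := S.indicator (fun _ => (1 : ℝ)) (s * n)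

/-- For all `M ≤ N' ≤ N`, every action of a commutative group on a probability space by measure
preserving transformations, all elements `g_1, ..., g_k` of the group and all measurable functions
`f_1, ..., f_k` with absolute value at most `1`, the integral of the square of the sum over
`M < n ≤ N'` of `(1_S(s n) - ρ) f_1(n g_1 x) ... f_k(n g_k x)` is at most `ε N ^ 2`. -/
def MultipleAverages (k : ℕ) (ε : ℝ) (s : ℤ) (S : Set ℤ) (ρ : ℝ) (N : ℕ) : Prop :=
  ∀ M N' : ℕ, M ≤ N' → N' ≤ N → ∀ (G X : Type) [AddCommGroup G] [MeasurableSpace X] (μ : Measure X)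
    [IsProbabilityMeasure μ] (act : G → X → X), PreservingAction μ act →
    ∀ (g : Fin k → G) (f : Fin k → X → ℝ), (∀ j, Measurable (f j)) → (∀ j x, |f j x| ≤ 1) →
      ∫ x, (∑ n ∈ Finset.Ioc M N', (ind s S n - ρ) * ∏ j, f j (act (n • g j) x)) ^ 2 ∂μ ≤ ε * N ^ 2

/-- The sum over `M < n ≤ N` of the complex number `c n` times `U ^ P(n) v`, for a unitary operator
`U`. -/
noncomputable def opSum {H : Type} [NormedAddCommGroup H] [InnerProductSpace ℂ H] (U : H ≃ₗᵢ[ℂ] H)
    (P : Polynomial ℤ) (c : ℕ → ℂ) (M N : ℕ) (v : H) : H :=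
  ∑ n ∈ Finset.Ioc M N, c n • (U ^ P.eval (n : ℤ)) v

/-- For all `M ≤ N' ≤ N`, every integer polynomial `P` of degree at most `k` and every unitary operator
`U` of a complex Hilbert space, the sum over `M < n ≤ N'` of `(1_S(s n) - ρ) U ^ P(n)` has operator
norm at most `ε N`. -/
def OperatorAverages (k : ℕ) (ε : ℝ) (s : ℤ) (S : Set ℤ) (ρ : ℝ) (N : ℕ) : Prop :=
  ∀ M N' : ℕ, M ≤ N' → N' ≤ N → ∀ P : Polynomial ℤ, P.natDegree ≤ k →
    ∀ (H : Type) [NormedAddCommGroup H] [InnerProductSpace ℂ H] [CompleteSpace H]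
      (U : H ≃ₗᵢ[ℂ] H) (v : H), ‖opSum U P (fun n => ((ind s S n - ρ : ℝ) : ℂ)) M N' v‖ ≤ ε * N * ‖v‖

/-- The average over `n ≤ N` of `c n` times `U ^ P(n) v` converges to `w` for `N → ∞`. -/
def AveragesTendTo {H : Type} [NormedAddCommGroup H] [InnerProductSpace ℂ H] (U : H ≃ₗᵢ[ℂ] H)
    (P : Polynomial ℤ) (c : ℕ → ℂ) (v w : H) : Prop :=
  Tendsto (fun N : ℕ => (N : ℂ)⁻¹ • opSum U P c 0 N v) atTop (𝓝 w)

/-- For every unitary operator `U` of a complex Hilbert space and every vector `v`: for every integer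
polynomial `P`, if the averages of `U ^ P(n) v` over `n ≤ N` converge to `w`, then the averages of
`1_S(s n) U ^ P(n) v` over `n ≤ N` converge to `ρ w`; and the averages of `1_S(s n) U ^ n v` converge to
`ρ w`, where `w` is the orthogonal projection of `v` to the space of the fixed vectors of `U`. -/
def MeanErgodic (s : ℤ) (S : Set ℤ) (ρ : ℝ) : Prop :=
  ∀ (H : Type) [NormedAddCommGroup H] [InnerProductSpace ℂ H] [CompleteSpace H]
    (U : H ≃ₗᵢ[ℂ] H) (v : H),
    (∀ (P : Polynomial ℤ) (w : H), AveragesTendTo U P (fun _ => 1) v w →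
      AveragesTendTo U P (fun n => ((ind s S n : ℝ) : ℂ)) v ((ρ : ℂ) • w)) ∧
    ∃ w : H, U w = w ∧ (∀ z : H, U z = z → inner ℂ z (v - w) = 0) ∧
      AveragesTendTo U Polynomial.X (fun n => ((ind s S n : ℝ) : ℂ)) v ((ρ : ℂ) • w)

/-- The union of the five known cycles. -/
def Known : Finset ℤ := {1, 2, 0, -1, -5, -7, -10, -17, -25, -37, -55, -82, -41, -61, -91, -136,
  -68, -34}

/-- The integers whose trajectory enters a cycle other than the five known ones. -/
def Other : Set ℤ :=
  {x | ∃ j p : ℕ, 1 ≤ p ∧ T^[p] (T^[j] x) = T^[j] x ∧ T^[j] x ∉ Known}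

/-- For some `k` and `κ > 0` and some `ψ` which tends to `0` there are, for infinitely many `N`, an
action of a commutative group on a probability space, `k` elements `g j` of the group and `k`
measurable functions `f j` with values in `[0, 1]`, such that the integral of the sum over all `n ≤ N`
of `∏ f j (n g_j x)` is at least `κ N`, and the integral of the sum over the `n ≤ N` with `s n ∈ U` is
at most `ψ(N) N`. -/
def Rare (s : ℤ) (U : Set ℤ) : Prop :=
  ∃ (k : ℕ) (κ : ℝ) (ψ : ℕ → ℝ), 0 < κ ∧ Tendsto ψ atTop (𝓝 0) ∧ ∃ᶠ N : ℕ in atTop,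
    ∃ (G X : Type) (_ : AddCommGroup G) (_ : MeasurableSpace X) (μ : Measure X)
      (_ : IsProbabilityMeasure μ) (act : G → X → X) (g : Fin k → G) (f : Fin k → X → ℝ),
      PreservingAction μ act ∧ (∀ j, Measurable (f j)) ∧ (∀ j x, 0 ≤ f j x ∧ f j x ≤ 1) ∧
      κ * N ≤ ∫ x, ∑ n ∈ Finset.Ioc 0 N, ∏ j, f j (act (n • g j) x) ∂μ ∧
      ∫ x, ∑ n ∈ Finset.Ioc 0 N, ind s U n * ∏ j, f j (act (n • g j) x) ∂μ ≤ ψ N * N

/-! ### proofs -/

theorem known_closed : ∀ x ∈ Known, T x ∈ Known := by decide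

theorem known_iter (j : ℕ) : ∀ x ∈ Known, T^[j] x ∈ Known := by
  induction j with
  | zero => intro x hx; exact hx
  | succ j ih => intro x hx; rw [Function.iterate_succ_apply]; exact ih _ (known_closed x hx)

theorem other_inv : Invariant Other := by
  intro x
  constructor
  · rintro ⟨j, p, hp, h1, h2⟩
    cases j with
    | zero =>
      refine ⟨0, p, hp, ?_, ?_⟩
      · change T^[p] (T x) = T x
        rw [← Function.iterate_succ_apply, Function.iterate_succ_apply']
        exact congrArg T h1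
      · intro h3
        apply h2
        change T x ∈ Known at h3
        change x ∈ Known
        have h4 := known_iter (p - 1) _ h3
        rw [← Function.iterate_succ_apply, show (p - 1).succ = p by omega] at h4
        have h5 : T^[p] x = x := h1
        rwa [h5] at h4
    | succ j =>
      rw [Function.iterate_succ_apply] at h1 h2
      exact ⟨j, p, hp, h1, h2⟩
  · rintro ⟨j, p, hp, h1, h2⟩
    exact ⟨j + 1, p, hp, by rw [Function.iterate_succ_apply]; exact h1,
      by rw [Function.iterate_succ_apply]; exact h2⟩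

theorem inv_C {S : Set ℤ} (hS : Invariant S) :
    Pool.Agent.Results.MP_2d22f3_nt.GowersNorms.Invariant S := by
  intro x
  unfold Pool.Agent.Results.MP_2d22f3_nt.GowersNorms.C
  by_cases h : x % 2 = 0
  · rw [if_pos h]
    have := hS x
    unfold T at this
    rwa [if_pos h] at this
  · rw [if_neg h]
    have h1 := hS x
    have h2 := hS (3 * x + 1)
    have h3 : (3 * x + 1) % 2 = 0 := by omega
    unfold T at h1 h2
    rw [if_neg h] at h1
    rw [if_pos h3] at h2
    rw [h1, h2]

theorem density_pos {s : ℤ} (hs : s = 1 ∨ s = -1) {S : Set ℤ} (hS : Invariant S)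
    (hne : ∃ x ∈ S, 0 < s * x) : ∃ ρ : ℝ, 0 < ρ ∧ HasDensity s S ρ := by
  obtain ⟨ρ, h1, h2⟩ := Pool.Agent.Results.MP_2d22f3_nt.GowersNorms.HD_iff hs (inv_C hS)
  obtain ⟨x, hx, hx0⟩ := hne
  exact ⟨ρ, Pool.Agent.H499R2.ND.one_pos hs
    (Pool.Agent.Results.MP_2d22f3_nt.GowersNorms.inv_of (inv_C hS)) hx hx0 h1, h2⟩

theorem averages (k : ℕ) (ε : ℝ) (hε : 0 < ε) : ∃ N₀ : ℕ, ∀ s : ℤ, (s = 1 ∨ s = -1) →
    ∀ S : Set ℤ, Invariant S → ∀ ρ : ℝ, HasDensity s S ρ → ∀ N : ℕ, N₀ ≤ N → ∀ M N' : ℕ, M ≤ N' →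
      N' ≤ N → ∀ (G X : Type) [AddCommGroup G] [MeasurableSpace X] (μ : Measure X)
        [IsProbabilityMeasure μ] (act : G → X → X), PreservingAction μ act →
      ∀ (g : Fin k → G) (f : Fin k → X → ℝ), (∀ j, Measurable (f j)) → (∀ j x, |f j x| ≤ 1) →
        ∫ x, (∑ n ∈ Finset.Ioc M N', (ind s S n - ρ) * ∏ j, f j (act (n • g j) x)) ^ 2 ∂μ ≤
          ε * N ^ 2 := by
  obtain ⟨N₁, h1⟩ := Pool.Agent.Results.MP_2d22f3_nt.GowersNorms.result.1 1 (Or.inl rfl) k
    ((ε / 9) ^ (2 ^ k)) (by positivity)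
  obtain ⟨N₂, h2⟩ := Pool.Agent.Results.MP_2d22f3_nt.GowersNorms.result.1 (-1) (Or.inr rfl) k
    ((ε / 9) ^ (2 ^ k)) (by positivity)
  refine ⟨N₁ + N₂ + 1, fun s hs S hS ρ hρ N hN M N' hM hN' G X _ _ μ _ act hact g f hf hf1 => ?_⟩
  have h3 : ∃ δ : ℝ, Pool.Agent.Results.MP_2d22f3_nt.GowersNorms.HasDensity s S δ ∧
      Pool.Agent.Results.MP_2d22f3_nt.GowersNorms.Gowers (k + 1)
        (Pool.Agent.Results.MP_2d22f3_nt.GowersNorms.Balanced s S δ M N') N ≤
        (ε / 9) ^ (2 ^ k) * N ^ (k + 2) := by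
    rcases hs with rfl | rfl
    · obtain ⟨δ, hδ, h⟩ := h1 S (inv_C hS)
      exact ⟨δ, hδ, (h N (by omega) M N' hM hN').1⟩
    · obtain ⟨δ, hδ, h⟩ := h2 S (inv_C hS)
      exact ⟨δ, hδ, (h N (by omega) M N' hM hN').1⟩
  obtain ⟨δ, hδ, hG⟩ := h3
  have hδρ : δ = ρ := tendsto_nhds_unique hδ hρ
  subst hδρ
  exact Pool.Agent.V11270.CZ.erg_balanced hε hM hN' (by omega) hG hact.1 hact.2 g f hf hf1

theorem operators (k : ℕ) (ε : ℝ) (hε : 0 < ε) : ∃ N₀ : ℕ, ∀ s : ℤ, (s = 1 ∨ s = -1) →
    ∀ S : Set ℤ, Invariant S → ∀ ρ : ℝ, HasDensity s S ρ → ∀ N : ℕ, N₀ ≤ N →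
      OperatorAverages k ε s S ρ N := by
  obtain ⟨N₁, h1⟩ := Pool.Agent.V11270.CZ.unitary_poly k 1 (Or.inl rfl) ε hε
  obtain ⟨N₂, h2⟩ := Pool.Agent.V11270.CZ.unitary_poly k (-1) (Or.inr rfl) ε hε
  refine ⟨N₁ + N₂ + 1, fun s hs S hS ρ hρ N hN M N' hM hN' P hP H _ _ _ U v => ?_⟩
  have key : ‖∑ n ∈ Finset.Ioc M N', ((ind s S n - ρ : ℝ) : ℂ) •
      (((Unitary.linearIsometryEquiv.symm U) ^ P.eval (n : ℤ) : unitary (H →L[ℂ] H)) :
        H →L[ℂ] H)‖ ≤ ε * N := by
    rcases hs with rfl | rfl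
    · obtain ⟨δ, hδ, h⟩ := h1 S (inv_C hS)
      have hδρ : δ = ρ := tendsto_nhds_unique hδ hρ
      subst hδρ
      exact h N (by omega) M N' hM hN' P hP _ _
    · obtain ⟨δ, hδ, h⟩ := h2 S (inv_C hS)
      have hδρ : δ = ρ := tendsto_nhds_unique hδ hρ
      subst hδρ
      exact h N (by omega) M N' hM hN' P hP _ _
  have h3 : opSum U P (fun n => ((ind s S n - ρ : ℝ) : ℂ)) M N' v =
      (∑ n ∈ Finset.Ioc M N', ((ind s S n - ρ : ℝ) : ℂ) •
      (((Unitary.linearIsometryEquiv.symm U) ^ P.eval (n : ℤ) : unitary (H →L[ℂ] H)) :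
        H →L[ℂ] H)) v := by
    unfold opSum
    rw [_root_.sum_apply]
    refine Finset.sum_congr rfl fun n _ => ?_
    rw [_root_.smul_apply, ← map_zpow]
    rfl
  rw [h3]
  exact (ContinuousLinearMap.le_opNorm _ v).trans (mul_le_mul_of_nonneg_right key (norm_nonneg _))

theorem transfer {s : ℤ} (hs : s = 1 ∨ s = -1) {S : Set ℤ} (hS : Invariant S) {ρ : ℝ}
    (hρ : HasDensity s S ρ) (P : Polynomial ℤ) {H : Type} [NormedAddCommGroup H]
    [InnerProductSpace ℂ H] [CompleteSpace H] (U : H ≃ₗᵢ[ℂ] H) (v w : H)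
    (h : AveragesTendTo U P (fun _ => 1) v w) :
    AveragesTendTo U P (fun n => ((ind s S n : ℝ) : ℂ)) v ((ρ : ℂ) • w) := by
  have h1 : AveragesTendTo U P (fun n => ((ind s S n - ρ : ℝ) : ℂ)) v 0 := by
    unfold AveragesTendTo
    rw [Metric.tendsto_atTop]
    intro ε hε
    obtain ⟨N₀, h2⟩ := operators P.natDegree (ε / (2 * (‖v‖ + 1))) (by positivity)
    refine ⟨N₀ + 1, fun N hN => ?_⟩
    have h3 := h2 s hs S hS ρ hρ N (by omega) 0 N (Nat.zero_le _) le_rfl P le_rfl H U v
    have hNp : (0 : ℝ) < N := by exact_mod_cast (by omega : 0 < N)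
    rw [dist_zero_right, norm_smul, norm_inv, Complex.norm_natCast]
    have h6 : ε / (2 * (‖v‖ + 1)) * N * ‖v‖ ≤ ε / 2 * N := by
      have h7 : ‖v‖ / (‖v‖ + 1) ≤ 1 := by
        rw [div_le_one (by positivity)]
        linarith
      calc ε / (2 * (‖v‖ + 1)) * N * ‖v‖ = ε / 2 * N * (‖v‖ / (‖v‖ + 1)) := by field_simp
        _ ≤ ε / 2 * N * 1 := mul_le_mul_of_nonneg_left h7 (by positivity)
        _ = _ := mul_one _
    calc (N : ℝ)⁻¹ * ‖opSum U P (fun n => ((ind s S n - ρ : ℝ) : ℂ)) 0 N v‖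
        ≤ (N : ℝ)⁻¹ * (ε / 2 * N) := mul_le_mul_of_nonneg_left (h3.trans h6) (by positivity)
      _ = ε / 2 := by field_simp
      _ < ε := by linarith
  unfold AveragesTendTo at h h1 ⊢
  have h2 := h1.add (h.const_smul (ρ : ℂ))
  rw [zero_add] at h2
  refine h2.congr fun N => ?_
  rw [smul_comm (ρ : ℂ) ((N : ℂ)⁻¹), ← smul_add]
  congr 1
  unfold opSum
  rw [Finset.smul_sum, ← Finset.sum_add_distrib]
  refine Finset.sum_congr rfl fun n _ => ?_
  rw [one_smul, ← add_smul]
  congr 1
  push_cast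
  ring

theorem rare_none {s : ℤ} (hs : s = 1 ∨ s = -1) {U : Set ℤ} (hU : Invariant U) (h : Rare s U) :
    ∀ x ∈ U, ¬ 0 < s * x := by
  intro x hx hx0
  obtain ⟨ρ, hρ, hd⟩ := density_pos hs hU ⟨x, hx, hx0⟩
  obtain ⟨k, κ, ψ, hκ, hψ, hf⟩ := h
  obtain ⟨N₀, hN₀⟩ := averages k ((ρ * κ / 2) ^ 2) (by positivity)
  have h1 : ∀ᶠ N : ℕ in atTop, ψ N < ρ * κ / 2 := (tendsto_order.1 hψ).2 _ (by positivity)
  obtain ⟨N, ⟨G, X, _, _, μ, _, act, g, f, hact, hfm, hf01, hall, hU'⟩, h3, h4⟩ :=
    (hf.and_eventually (h1.and (eventually_ge_atTop (N₀ + 1)))).exists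
  have hNp : (0 : ℝ) < N := by exact_mod_cast (by omega : 0 < N)
  have hf1 : ∀ j x, |f j x| ≤ 1 := fun j x => by
    rw [abs_of_nonneg (hf01 j x).1]
    exact (hf01 j x).2
  have h5 := hN₀ s hs U hU ρ hd N (by omega) 0 N (Nat.zero_le _) le_rfl G X μ act hact g f hfm hf1
  have hprodm : ∀ n : ℕ, Measurable (fun x => ∏ j, f j (act (n • g j) x)) := fun n =>
    Finset.measurable_fun_prod _ fun j _ => (hfm j).comp (hact.1 _).measurable
  have hprodb : ∀ (n : ℕ) (x : X), |∏ j, f j (act (n • g j) x)| ≤ 1 := by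
    intro n x
    rw [Finset.abs_prod]
    exact Finset.prod_le_one (fun _ _ => abs_nonneg _) fun j _ => hf1 j _
  have hm : Measurable (fun x => ∑ n ∈ Finset.Ioc 0 N, (ind s U n - ρ) *
      ∏ j, f j (act (n • g j) x)) :=
    Finset.measurable_fun_sum _ fun n _ => (hprodm n).const_mul _
  have hb : ∀ x, |∑ n ∈ Finset.Ioc 0 N, (ind s U n - ρ) * ∏ j, f j (act (n • g j) x)| ≤
      ∑ n ∈ Finset.Ioc 0 N, |ind s U n - ρ| := by
    intro x
    refine (Finset.abs_sum_le_sum_abs _ _).trans (Finset.sum_le_sum fun n _ => ?_)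
    rw [abs_mul]
    exact mul_le_of_le_one_right (abs_nonneg _) (hprodb n x)
  have h6 := Pool.Agent.V11270.CZ.sq_int_le (μ := μ) hm hb
  have h7 : |∫ x, ∑ n ∈ Finset.Ioc 0 N, (ind s U n - ρ) * ∏ j, f j (act (n • g j) x) ∂μ| ≤
      ρ * κ / 2 * N := by
    apply abs_le_of_sq_le_sq _ (by positivity)
    refine (h6.trans h5).trans (le_of_eq ?_)
    ring
  have hi1 : ∀ n : ℕ, Integrable (fun x => ∏ j, f j (act (n • g j) x)) μ := fun n =>
    Pool.Agent.V11270.CZ.int_of_bdd (hprodm n) (hprodb n)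
  have h8 : ∫ x, ∑ n ∈ Finset.Ioc 0 N, (ind s U n - ρ) * ∏ j, f j (act (n • g j) x) ∂μ =
      ∫ x, ∑ n ∈ Finset.Ioc 0 N, ind s U n * ∏ j, f j (act (n • g j) x) ∂μ -
      ρ * ∫ x, ∑ n ∈ Finset.Ioc 0 N, ∏ j, f j (act (n • g j) x) ∂μ := by
    rw [← integral_const_mul, ← integral_sub (integrable_finsetSum _ fun n _ => (hi1 n).const_mul _)
      ((integrable_finsetSum _ fun n _ => hi1 n).const_mul _)]
    congr 1
    funext x
    rw [Finset.mul_sum, ← Finset.sum_sub_distrib]
    exact Finset.sum_congr rfl fun n _ => by ring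
  rw [h8] at h7
  have h9 := (abs_le.1 h7).1
  have h10 : ρ * (κ * N) ≤ ρ * ∫ x, ∑ n ∈ Finset.Ioc 0 N, ∏ j, f j (act (n • g j) x) ∂μ :=
    mul_le_mul_of_nonneg_left hall hρ.le
  have h11 : ψ N * N < ρ * κ / 2 * N := mul_lt_mul_of_pos_right h3 hNp
  linarith

/-- (A) (Multiple ergodic averages and polynomial averages of operators.) For all `k` and `ε > 0` there
is `N₀` such that for both signs `s`, every invariant set `S`, whose density among the integers of
sign `s` is `ρ`, and every `N ≥ N₀`: the bound of `MultipleAverages` holds for the multiple averages of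
commuting measure preserving transformations, and the bound of `OperatorAverages` holds for the
polynomial averages of unitary operators, with the weights `1_S(s n) - ρ`, uniformly in the
transformations, the functions, the operators and the polynomials.
(B) (Mean ergodic theorem.) For a unitary operator `U`, a vector `v` and an integer polynomial `P`: if
the averages of `U ^ P(n) v` over `n ≤ N` converge to `w`, then the averages of `1_S(s n) U ^ P(n) v`
converge to `ρ w`. In particular, the averages of `1_S(s n) U ^ n v` converge to `ρ` times the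
orthogonal projection of `v` to the space of the fixed vectors of `U`.
(C) An invariant set which is rare in the sense of `Rare`, for the sign `s`, contains no integer of
sign `s`. If for both signs the set of the integers whose trajectory enters an unknown cycle is rare,
then all cycles are known. -/
theorem result :
    (∀ (k : ℕ) (ε : ℝ), 0 < ε → ∃ N₀ : ℕ, ∀ s : ℤ, (s = 1 ∨ s = -1) →
      ∀ S : Set ℤ, Invariant S → ∀ ρ : ℝ, HasDensity s S ρ → ∀ N : ℕ, N₀ ≤ N →
        MultipleAverages k ε s S ρ N ∧ OperatorAverages k ε s S ρ N) ∧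
    (∀ s : ℤ, (s = 1 ∨ s = -1) → ∀ S : Set ℤ, Invariant S → ∀ ρ : ℝ, HasDensity s S ρ →
      MeanErgodic s S ρ) ∧
    (∀ s : ℤ, (s = 1 ∨ s = -1) → ∀ U : Set ℤ, Invariant U → Rare s U → ∀ x ∈ U, ¬ 0 < s * x) ∧
    ((∀ s : ℤ, (s = 1 ∨ s = -1) → Rare s Other) →
      ∀ x : ℤ, (∃ p : ℕ, 1 ≤ p ∧ T^[p] x = x) → x ∈ Known) := by
  refine ⟨?_, ?_, fun s hs U hU h => rare_none hs hU h, ?_⟩
  · intro k ε hε
    obtain ⟨N₁, h1⟩ := averages k ε hε
    obtain ⟨N₂, h2⟩ := operators k ε hε
    refine ⟨N₁ + N₂, fun s hs S hS ρ hρ N hN => ⟨?_, ?_⟩⟩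
    · exact h1 s hs S hS ρ hρ N (by omega)
    · exact h2 s hs S hS ρ hρ N (by omega)
  · intro s hs S hS ρ hρ H _ _ _ U v
    refine ⟨fun P w h => transfer hs hS hρ P U v w h, ?_⟩
    obtain ⟨V, hV⟩ : ∃ V : H →L[ℂ] H, V = (U.toContinuousLinearEquiv : H →L[ℂ] H) := ⟨_, rfl⟩
    have hVU : ∀ x, V x = U x := fun x => by rw [hV]; rfl
    have hU1 : ‖V‖ ≤ 1 := by
      refine ContinuousLinearMap.opNorm_le_bound _ zero_le_one fun x => ?_
      rw [hVU, LinearIsometryEquiv.norm_map, one_mul]
    have h1 := ContinuousLinearMap.tendsto_birkhoffAverage_orthogonalProjection V hU1 v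
    obtain ⟨w, hw⟩ : ∃ w : H, w = ((V.eqLocus (1 : H →L[ℂ] H)).orthogonalProjectionOnto
      v : H) := ⟨_, rfl⟩
    rw [← hw] at h1
    have hfix : V w = w := by
      have h2 := ((V.eqLocus (1 : H →L[ℂ] H)).orthogonalProjectionOnto v).2
      rw [← hw] at h2
      exact h2
    refine ⟨w, (hVU w).symm.trans hfix, fun z hz => ?_, ?_⟩
    · have h2 := Submodule.sub_starProjection_mem_orthogonal
        (K := (V.eqLocus (1 : H →L[ℂ] H))) v
      rw [Submodule.mem_orthogonal] at h2
      have h3 := h2 z ((hVU z).trans hz)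
      rw [hw]
      exact h3
    · refine transfer hs hS hρ Polynomial.X U v w ?_
      have h3 := (V.continuous.tendsto w).comp h1
      rw [hfix] at h3
      refine h3.congr fun N => ?_
      change V (birkhoffAverage ℂ V _root_.id N v) = _
      unfold birkhoffAverage birkhoffSum opSum
      rw [map_smul, map_sum]
      congr 1
      have e1 : Finset.Ioc 0 N = (Finset.range N).image (fun n => n + 1) := by
        ext m
        simp only [Finset.mem_Ioc, Finset.mem_image, Finset.mem_range]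
        constructor
        · intro h
          exact ⟨m - 1, by omega, by omega⟩
        · rintro ⟨a, ha, rfl⟩
          omega
      rw [e1, Finset.sum_image (fun a _ b _ h => by simpa using h)]
      refine Finset.sum_congr rfl fun n _ => ?_
      rw [Polynomial.eval_X, zpow_natCast, one_smul]
      have e2 : ∀ m : ℕ, (U ^ m) v = V^[m] v := by
        intro m
        induction m with
        | zero => rfl
        | succ m ih =>
          rw [pow_succ', Function.iterate_succ_apply', ← ih, hVU]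
          rfl
      rw [e2, Function.iterate_succ_apply']
      rfl
  · rintro h x ⟨p, hp, hx⟩
    by_contra hcon
    have hO : x ∈ Other := ⟨0, p, hp, hx, hcon⟩
    have hx0 : x ≠ 0 := by
      rintro rfl
      exact hcon (by decide)
    rcases lt_or_gt_of_ne hx0 with h1 | h1
    · exact rare_none (Or.inr rfl) other_inv (h (-1) (Or.inr rfl)) x hO (by omega)
    · exact rare_none (Or.inl rfl) other_inv (h 1 (Or.inl rfl)) x hO (by omega)

end Pool.Agent.Results.MP_edb5be_nt.ErgodicAverages
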