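import Mathlib
import Pool.Agent.V11270.CZ.Rado

set_option autoImplicit false

/-!
# Rado's theorem in the shifted basins of the cycles of the 3x+1 map

Let `S` be a set of integers which is invariant under the 3x+1 map and its inverse, for example the
basin of a cycle, with density at least `β > 0` among the integers of sign `s`. Let `A x = 0` be a
homogeneous linear system with integer coefficients which satisfies Rado's columns condition. For all
large `N`, all shifts `h` of size at most `κ N` and all colourings with `q` colours, at least `κ` times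
all solutions of the system in `[1, N]` are monochromatic and such that `s x + h ∈ S` for all
coordinates `x`; here `κ > 0` depends only on the system, on `q` and on `β`. This contains the theorem
of Rado, and its quantitative form by Frankl, Graham and Rödl, relative to the shifted basins. The
same holds for the `(k, p, c)`-sets of Deuber.

All cycles are known if for both signs there are such a system and, for infinitely many `N`, a
colouring with boundedly many colours and a shift of size `o(N)` such that only a proportion `o(1)`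
of all solutions is monochromatic and has, after the shift, all coordinates in the union of the
basins of the unknown cycles.

Method. Deuber's theorem is proved for linear forms in echelon form, by the Hales-Jewett theorem; the
forms of Deuber's set are pairwise independent and positive at a common point, so the count of the
points at which all of them have values in the shifted invariant set (part C of the starting file
`GowersNorms` of MP_2d22f3_nt) applies.
-/

namespace Pool.Agent.Results.MP_edb5be_nt.RadoInBasins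

open Filter Topology

/-- The 3x+1 map on the integers. -/
def T (x : ℤ) : ℤ := if x % 2 = 0 then x / 2 else (3 * x + 1) / 2

/-- `S` is invariant under `T` and its inverse, for example the set of the integers whose trajectory
enters a given cycle. -/
def Invariant (S : Set ℤ) : Prop := ∀ x : ℤ, x ∈ S ↔ T x ∈ S

/-- Among the integers of sign `s` the set `S` has natural density `δ`. -/
def HasDensity (s : ℤ) (S : Set ℤ) (δ : ℝ) : Prop :=
  Tendsto (fun N : ℕ => ({n : ℤ | 0 < s * n ∧ s * n ≤ N ∧ n ∈ S}.ncard : ℝ) / N) atTop (𝓝 δ)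

/-- Deuber's set with parameters `p`, `c` generated by `w`: all the integers
`c w_i + ∑_(j < i) μ_j w_j` with integers `|μ_j| ≤ p`. -/
def DeuberSet (p c : ℕ) {k : ℕ} (w : Fin k → ℕ) : Set ℤ :=
  {v | ∃ (i : Fin k) (μ : Fin k → ℤ), (∀ j, |μ j| ≤ p) ∧
    v = c * w i + ∑ j ∈ Finset.univ.filter (fun j => j < i), μ j * w j}

/-- The systems of generators in `[1, N]` whose Deuber set is contained in `[1, N]`, is monochromatic
for `χ`, and is such that `s v + h ∈ S` for all its elements `v`. -/
def Generators (p c k N : ℕ) {q : ℕ} (χ : ℤ → Fin q) (s h : ℤ) (S : Set ℤ) : Set (Fin k → ℕ) :=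
  {w | (∀ i, 1 ≤ w i ∧ w i ≤ N) ∧
    ∃ col, ∀ v ∈ DeuberSet p c w, 1 ≤ v ∧ v ≤ N ∧ χ v = col ∧ s * v + h ∈ S}

/-- Rado's columns condition for the matrix `A`: the columns are divided in `k` levels, such that the
sum of the columns of every level is a rational combination of the columns of lower levels. -/
def ColumnsCondition {a b : ℕ} (A : Fin a → Fin b → ℤ) : Prop :=
  ∃ (k : ℕ) (lev : Fin b → Fin k), ∀ i : Fin k, ∃ γ : Fin b → ℚ, (∀ j, i ≤ lev j → γ j = 0) ∧
    ∀ t, ∑ j ∈ Finset.univ.filter (fun j => lev j = i), (A t j : ℚ) = ∑ j, γ j * A t j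

/-- The solutions of the system `A x = 0` with coordinates in `[1, N]`. -/
def Solutions {a b : ℕ} (A : Fin a → Fin b → ℤ) (N : ℕ) : Set (Fin b → ℕ) :=
  {x | (∀ j, 1 ≤ x j ∧ x j ≤ N) ∧ ∀ t, ∑ j, A t j * (x j : ℤ) = 0}

/-- The solutions of the system in `[1, N]` which are monochromatic for `χ`, and such that
`s x + h ∈ S` for all coordinates `x`. -/
def MonoSolutions {a b : ℕ} (A : Fin a → Fin b → ℤ) (N : ℕ) {q : ℕ} (χ : ℤ → Fin q) (s h : ℤ)
    (S : Set ℤ) : Set (Fin b → ℕ) :=
  {x | x ∈ Solutions A N ∧ (∃ col, ∀ j, χ (x j) = col) ∧ ∀ j, s * (x j : ℤ) + h ∈ S}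

/-- The union of the five known cycles. -/
def Known : Finset ℤ := {1, 2, 0, -1, -5, -7, -10, -17, -25, -37, -55, -82, -41, -61, -91, -136,
  -68, -34}

/-- The integers whose trajectory enters a cycle other than the five known ones. -/
def Other : Set ℤ :=
  {x | ∃ j p : ℕ, 1 ≤ p ∧ T^[p] (T^[j] x) = T^[j] x ∧ T^[j] x ∉ Known}

/-- For some system with the columns condition, some number `q` of colours, and some `ψ` which tends to
`0`, there are for infinitely many `N` a colouring and an integer `h` of size at most `ψ(N) N` such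
that the number of the monochromatic solutions in `[1, N]` such that `s x + h ∈ U` for all coordinates
is at most `ψ(N)` times the number of all solutions. -/
def Rare (s : ℤ) (U : Set ℤ) : Prop :=
  ∃ (a b : ℕ) (A : Fin a → Fin b → ℤ), ColumnsCondition A ∧ ∃ (q : ℕ) (ψ : ℕ → ℝ),
    Tendsto ψ atTop (𝓝 0) ∧ ∃ᶠ N : ℕ in atTop, ∃ (χ : ℤ → Fin q) (h : ℤ), |(h : ℝ)| ≤ ψ N * N ∧
      ((MonoSolutions A N χ s h U).ncard : ℝ) ≤ ψ N * (Solutions A N).ncard

/-! ### proofs -/

theorem known_closed : ∀ x ∈ Known, T x ∈ Known := by decide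

theorem known_iter (j : ℕ) : ∀ x ∈ Known, T^[j] x ∈ Known := by
  induction j with
  | zero => intro x hx; exact hx
  | succ j ih => intro x hx; rw [Function.iterate_succ_apply]; exact ih _ (known_closed x hx)

theorem other_inv : Invariant Other := by
  intro x
  constructor
  · rintro ⟨j, p, hp, h1, h2⟩
    cases j with
    | zero =>
      refine ⟨0, p, hp, ?_, ?_⟩
      · change T^[p] (T x) = T x
        rw [← Function.iterate_succ_apply, Function.iterate_succ_apply']
        exact congrArg T h1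
      · intro h3
        apply h2
        change T x ∈ Known at h3
        change x ∈ Known
        have h4 := known_iter (p - 1) _ h3
        rw [← Function.iterate_succ_apply, show (p - 1).succ = p by omega] at h4
        have h5 : T^[p] x = x := h1
        rwa [h5] at h4
    | succ j =>
      rw [Function.iterate_succ_apply] at h1 h2
      exact ⟨j, p, hp, h1, h2⟩
  · rintro ⟨j, p, hp, h1, h2⟩
    exact ⟨j + 1, p, hp, by rw [Function.iterate_succ_apply]; exact h1,
      by rw [Function.iterate_succ_apply]; exact h2⟩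

theorem inv_C {S : Set ℤ} (hS : Invariant S) :
    Pool.Agent.Results.MP_2d22f3_nt.GowersNorms.Invariant S := by
  intro x
  unfold Pool.Agent.Results.MP_2d22f3_nt.GowersNorms.C
  by_cases h : x % 2 = 0
  · rw [if_pos h]
    have := hS x
    unfold T at this
    rwa [if_pos h] at this
  · rw [if_neg h]
    have h1 := hS x
    have h2 := hS (3 * x + 1)
    have h3 : (3 * x + 1) % 2 = 0 := by omega
    unfold T at h1 h2
    rw [if_neg h] at h1
    rw [if_pos h3] at h2
    rw [h1, h2]

theorem density_pos {s : ℤ} (hs : s = 1 ∨ s = -1) {S : Set ℤ} (hS : Invariant S)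
    (hne : ∃ x ∈ S, 0 < s * x) : ∃ ρ : ℝ, 0 < ρ ∧ HasDensity s S ρ := by
  obtain ⟨ρ, h1, h2⟩ := Pool.Agent.Results.MP_2d22f3_nt.GowersNorms.HD_iff hs (inv_C hS)
  obtain ⟨x, hx, hx0⟩ := hne
  exact ⟨ρ, Pool.Agent.H499R2.ND.one_pos hs
    (Pool.Agent.Results.MP_2d22f3_nt.GowersNorms.inv_of (inv_C hS)) hx hx0 h1, h2⟩

theorem rado {a b : ℕ} (A : Fin a → Fin b → ℤ) (hA : ColumnsCondition A) (q : ℕ) (β : ℝ)
    (hβ : 0 < β) : ∃ κ : ℝ, 0 < κ ∧ ∃ N₀ : ℕ, ∀ s : ℤ, (s = 1 ∨ s = -1) →
      ∀ S : Set ℤ, Invariant S → ∀ ρ : ℝ, HasDensity s S ρ → β ≤ ρ → ∀ N : ℕ, N₀ ≤ N →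
      ∀ h : ℤ, |(h : ℝ)| ≤ κ * N → ∀ χ : ℤ → Fin q, 0 < (MonoSolutions A N χ s h S).ncard ∧
        κ * ((Solutions A N).ncard : ℝ) ≤ (MonoSolutions A N χ s h S).ncard := by
  obtain ⟨k, lev, h⟩ := hA
  obtain ⟨κ, hκ, N₀, h1⟩ := Pool.Agent.V11270.CZ.rado_in A lev h q β hβ
  exact ⟨κ, hκ, N₀, fun s hs S hS ρ hρ hβρ N hN c hc χ =>
    h1 s hs S (inv_C hS) ρ hρ hβρ N hN c hc (fun m => χ m)⟩

theorem rare_none {s : ℤ} (hs : s = 1 ∨ s = -1) {U : Set ℤ} (hU : Invariant U) (h : Rare s U) :
    ∀ x ∈ U, ¬ 0 < s * x := by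
  intro x hx hx0
  obtain ⟨ρ, hρ, hd⟩ := density_pos hs hU ⟨x, hx, hx0⟩
  obtain ⟨a, b, A, hA, q, ψ, hψ, hf⟩ := h
  obtain ⟨κ, hκ, N₀, hN₀⟩ := rado A hA q ρ hρ
  have h1 : ∀ᶠ N : ℕ in atTop, ψ N < κ := (tendsto_order.1 hψ).2 κ hκ
  obtain ⟨N, ⟨χ, c, hc, hcount⟩, h3, h4⟩ :=
    (hf.and_eventually (h1.and (eventually_ge_atTop (N₀ + 1)))).exists
  have hNp : (0 : ℝ) < N := by exact_mod_cast (by omega : 0 < N)
  have hlt : ψ N * N < κ * N := mul_lt_mul_of_pos_right h3 hNp
  obtain ⟨h5, h6⟩ := hN₀ s hs U hU ρ hd le_rfl N (by omega) c (hc.trans hlt.le) χ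
  have h7 : (MonoSolutions A N χ s c U).ncard ≤ (Solutions A N).ncard := by
    refine Set.ncard_le_ncard (fun x hx => hx.1) ?_
    exact (Set.finite_Iic (fun _ : Fin b => N)).subset fun _ hx i => (hx.1 i).2
  have h8 : (0 : ℝ) < (Solutions A N).ncard := by exact_mod_cast h5.trans_le h7
  have h9 : ψ N * (Solutions A N).ncard < κ * (Solutions A N).ncard :=
    mul_lt_mul_of_pos_right h3 h8
  linarith

/-- (A) (Deuber's theorem in shifted invariant sets.) For all `q`, `p`, `c ≥ 1`, `k` and `β > 0` there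
are `κ > 0` and `N₀` such that for both signs `s`, every invariant set `S` with density at least `β`
among the integers of sign `s`, every `N ≥ N₀`, every integer `h` with `|h| ≤ κ N` and every colouring
with `q` colours there are at least `κ N ^ k` systems of `k` generators in `[1, N]` whose Deuber set is
contained in `[1, N]`, is monochromatic, and is such that `s v + h ∈ S` for all its elements `v`.
(B) (Rado's theorem in shifted invariant sets.) For every system with the columns condition, all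
`q` and `β > 0` there are `κ > 0` and `N₀` such that for `s`, `S`, `N`, `h` and the colouring as in
(A) there are monochromatic solutions in `[1, N]` such that `s x + h ∈ S` for all coordinates `x`, and
their number is at least `κ` times the number of all solutions in `[1, N]`.
(C) An invariant set which is rare in the sense of `Rare`, for the sign `s`, contains no integer of
sign `s`. If for both signs the set of the integers whose trajectory enters an unknown cycle is rare,
then all cycles are known. -/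
theorem result :
    (∀ q p c k : ℕ, 0 < c → ∀ β : ℝ, 0 < β → ∃ κ : ℝ, 0 < κ ∧ ∃ N₀ : ℕ,
      ∀ s : ℤ, (s = 1 ∨ s = -1) → ∀ S : Set ℤ, Invariant S → ∀ ρ : ℝ, HasDensity s S ρ → β ≤ ρ →
      ∀ N : ℕ, N₀ ≤ N → ∀ h : ℤ, |(h : ℝ)| ≤ κ * N → ∀ χ : ℤ → Fin q,
        κ * (N : ℝ) ^ k ≤ (Generators p c k N χ s h S).ncard) ∧
    (∀ (a b : ℕ) (A : Fin a → Fin b → ℤ), ColumnsCondition A → ∀ (q : ℕ) (β : ℝ), 0 < β →
      ∃ κ : ℝ, 0 < κ ∧ ∃ N₀ : ℕ, ∀ s : ℤ, (s = 1 ∨ s = -1) →
      ∀ S : Set ℤ, Invariant S → ∀ ρ : ℝ, HasDensity s S ρ → β ≤ ρ → ∀ N : ℕ, N₀ ≤ N →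
      ∀ h : ℤ, |(h : ℝ)| ≤ κ * N → ∀ χ : ℤ → Fin q, 0 < (MonoSolutions A N χ s h S).ncard ∧
        κ * ((Solutions A N).ncard : ℝ) ≤ (MonoSolutions A N χ s h S).ncard) ∧
    (∀ s : ℤ, (s = 1 ∨ s = -1) → ∀ U : Set ℤ, Invariant U → Rare s U → ∀ x ∈ U, ¬ 0 < s * x) ∧
    ((∀ s : ℤ, (s = 1 ∨ s = -1) → Rare s Other) →
      ∀ x : ℤ, (∃ p : ℕ, 1 ≤ p ∧ T^[p] x = x) → x ∈ Known) := by
  refine ⟨?_, fun a b A hA q β hβ => rado A hA q β hβ, fun s hs U hU h => rare_none hs hU h, ?_⟩
  · intro q p c k hc β hβ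
    obtain ⟨κ, hκ, N₀, h⟩ := Pool.Agent.V11270.CZ.deuber_in q p c k hc β hβ
    refine ⟨κ, hκ, N₀, fun s hs S hS ρ hρ hβρ N hN d hd χ =>
      (h s hs S (inv_C hS) ρ hρ hβρ N hN d hd (fun m => χ m)).trans ?_⟩
    rw [Nat.cast_le]
    refine Set.ncard_le_ncard ?_ ((Set.finite_Iic (fun _ : Fin k => N)).subset
      fun _ hx i => (hx.1 i).2)
    rintro w ⟨hw, col, hcol⟩
    refine ⟨hw, col, ?_⟩
    rintro v ⟨i, μ, hμ, rfl⟩
    obtain ⟨m, h1, h2, h3, h4, h5⟩ := hcol i μ hμ
    rw [← h3]
    exact ⟨by exact_mod_cast h1, by exact_mod_cast h2, h4, h5⟩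
  · rintro h x ⟨p, hp, hx⟩
    by_contra hcon
    have hO : x ∈ Other := ⟨0, p, hp, hx, hcon⟩
    have hx0 : x ≠ 0 := by
      rintro rfl
      exact hcon (by decide)
    rcases lt_or_gt_of_ne hx0 with h1 | h1
    · exact rare_none (Or.inr rfl) other_inv (h (-1) (Or.inr rfl)) x hO (by omega)
    · exact rare_none (Or.inl rfl) other_inv (h 1 (Or.inl rfl)) x hO (by omega)

end Pool.Agent.Results.MP_edb5be_nt.RadoInBasins
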