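import Mathlib
import Pool.Agent.V11270.CZ.Meas

set_option autoImplicit false

/-!
# Szemerédi's theorem with common differences in the shifted basins of the cycles of the 3x+1 map

Call a set of positive integers IP-star of rank `r` if it contains a sum of distinct terms of every
sequence of `r` positive integers. Let `S` be a set of integers which is invariant under the 3x+1 map
and its inverse, for example the basin of a cycle, with density at least `β > 0` among the integers
of sign `s`. For all large `N`, all shifts `h` of size at most `κ N` and all sets `G` which are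
IP-star of rank `r`, at least `κ N` of the `m ≤ N` are in `G` and satisfy `s m + h ∈ S`; here `κ > 0`
depends only on `r` and `β`.

With the density Hales-Jewett theorem this gives the theorem of Furstenberg and Katznelson
(multidimensional Szemerédi theorem) with homothety ratios, and the multiple recurrence theorem for
commuting measure preserving transformations with times, in the shifted invariant set: the number of
the ratios, or times, up to `N` is at least `κ N`, where `κ` depends only on the cardinality of the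
configuration, on the density of the set in which it is found and on `β`.

All cycles are known if for both signs, for infinitely many `N`, only `o(N)` of the elements
`m ≤ N` of some set which is IP-star of bounded rank are such that `s m + h` enters an unknown cycle.

Method. The count of the points at which affine linear forms have values in invariant sets
(part C of the starting file `GowersNorms` of MP_2d22f3_nt), applied to all sums of distinct
variables, and the density Hales-Jewett theorem (starting file `Pool.Agent.H602R3.DHJ.Main`).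
-/

namespace Pool.Agent.Results.MP_edb5be_nt.SzemerediInBasins

open Filter Topology MeasureTheory

/-- The 3x+1 map on the integers. -/
def T (x : ℤ) : ℤ := if x % 2 = 0 then x / 2 else (3 * x + 1) / 2

/-- `S` is invariant under `T` and its inverse, for example the set of the integers whose trajectory
enters a given cycle. -/
def Invariant (S : Set ℤ) : Prop := ∀ x : ℤ, x ∈ S ↔ T x ∈ S

/-- Among the integers of sign `s` the set `S` has natural density `δ`. -/
def HasDensity (s : ℤ) (S : Set ℤ) (δ : ℝ) : Prop :=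
  Tendsto (fun N : ℕ => ({n : ℤ | 0 < s * n ∧ s * n ≤ N ∧ n ∈ S}.ncard : ℝ) / N) atTop (𝓝 δ)

/-- For every sequence of `r` positive integers the set `G` contains the sum of the terms with index
in some nonempty set. -/
def IPStar (r : ℕ) (G : Set ℕ) : Prop :=
  ∀ x : Fin r → ℕ, (∀ i, 1 ≤ x i) → ∃ I : Finset (Fin r), I.Nonempty ∧ ∑ i ∈ I, x i ∈ G

/-- The number of the `m` with `1 ≤ m ≤ N` in `G` such that `s m + h` is in `S`. -/
noncomputable def hits (s : ℤ) (S : Set ℤ) (h : ℤ) (N : ℕ) (G : Set ℕ) : ℕ :=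
  {m : ℕ | 1 ≤ m ∧ m ≤ N ∧ s * m + h ∈ S ∧ m ∈ G}.ncard

/-- There are arbitrarily large cubes `x + [0, N)^e` in which `A` has density at least `δ`; this
holds if the upper Banach density of `A` is greater than `δ`, and implies that it is at least `δ`. -/
def UpperDensity {e : ℕ} (A : Set (Fin e → ℤ)) (δ : ℝ) : Prop :=
  ∀ L : ℕ, ∃ N : ℕ, L ≤ N ∧ ∃ x : Fin e → ℤ,
    δ * (N : ℝ) ^ e ≤ (Set.ncard {v | v ∈ A ∧ ∀ i, x i ≤ v i ∧ v i < x i + N} : ℝ)

/-- `act` is an action of the additive monoid `M` on `X` by transformations which preserve `μ`. -/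
def PreservingAction {M X : Type} [AddCommMonoid M] [MeasurableSpace X] (μ : Measure X)
    (act : M → X → X) : Prop :=
  (∀ a, MeasurePreserving (act a) μ μ) ∧ ∀ a b x, act (a + b) x = act a (act b x)

/-- The union of the five known cycles. -/
def Known : Finset ℤ := {1, 2, 0, -1, -5, -7, -10, -17, -25, -37, -55, -82, -41, -61, -91, -136,
  -68, -34}

/-- The integers whose trajectory enters a cycle other than the five known ones. -/
def Other : Set ℤ :=
  {x | ∃ j p : ℕ, 1 ≤ p ∧ T^[p] (T^[j] x) = T^[j] x ∧ T^[j] x ∉ Known}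

/-- For some `r` and some `ψ` which tends to `0`, there are for infinitely many `N` a set `G` which
is IP-star of rank `r` and an integer `h` of size at most `ψ(N) N` such that at most `ψ(N) N` of the
elements `m ≤ N` of `G` are such that `s m + h` is in `U`. -/
def Rare (s : ℤ) (U : Set ℤ) : Prop :=
  ∃ (r : ℕ) (ψ : ℕ → ℝ), Tendsto ψ atTop (𝓝 0) ∧ ∃ᶠ N : ℕ in atTop, ∃ (G : Set ℕ) (h : ℤ),
    IPStar r G ∧ |(h : ℝ)| ≤ ψ N * N ∧ (hits s U h N G : ℝ) ≤ ψ N * N

/-! ### proofs -/

theorem known_closed : ∀ x ∈ Known, T x ∈ Known := by decide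

theorem known_iter (j : ℕ) : ∀ x ∈ Known, T^[j] x ∈ Known := by
  induction j with
  | zero => intro x hx; exact hx
  | succ j ih => intro x hx; rw [Function.iterate_succ_apply]; exact ih _ (known_closed x hx)

theorem other_inv : Invariant Other := by
  intro x
  constructor
  · rintro ⟨j, p, hp, h1, h2⟩
    cases j with
    | zero =>
      refine ⟨0, p, hp, ?_, ?_⟩
      · change T^[p] (T x) = T x
        rw [← Function.iterate_succ_apply, Function.iterate_succ_apply']
        exact congrArg T h1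
      · intro h3
        apply h2
        change T x ∈ Known at h3
        change x ∈ Known
        have h4 := known_iter (p - 1) _ h3
        rw [← Function.iterate_succ_apply, show (p - 1).succ = p by omega] at h4
        have h5 : T^[p] x = x := h1
        rwa [h5] at h4
    | succ j =>
      rw [Function.iterate_succ_apply] at h1 h2
      exact ⟨j, p, hp, h1, h2⟩
  · rintro ⟨j, p, hp, h1, h2⟩
    exact ⟨j + 1, p, hp, by rw [Function.iterate_succ_apply]; exact h1,
      by rw [Function.iterate_succ_apply]; exact h2⟩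

theorem inv_C {S : Set ℤ} (hS : Invariant S) :
    Pool.Agent.Results.MP_2d22f3_nt.GowersNorms.Invariant S := by
  intro x
  unfold Pool.Agent.Results.MP_2d22f3_nt.GowersNorms.C
  by_cases h : x % 2 = 0
  · rw [if_pos h]
    have := hS x
    unfold T at this
    rwa [if_pos h] at this
  · rw [if_neg h]
    have h1 := hS x
    have h2 := hS (3 * x + 1)
    have h3 : (3 * x + 1) % 2 = 0 := by omega
    unfold T at h1 h2
    rw [if_neg h] at h1
    rw [if_pos h3] at h2
    rw [h1, h2]

theorem density_pos {s : ℤ} (hs : s = 1 ∨ s = -1) {S : Set ℤ} (hS : Invariant S)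
    (hne : ∃ x ∈ S, 0 < s * x) : ∃ ρ : ℝ, 0 < ρ ∧ HasDensity s S ρ := by
  obtain ⟨ρ, h1, h2⟩ := Pool.Agent.Results.MP_2d22f3_nt.GowersNorms.HD_iff hs (inv_C hS)
  obtain ⟨x, hx, hx0⟩ := hne
  exact ⟨ρ, Pool.Agent.H499R2.ND.one_pos hs
    (Pool.Agent.Results.MP_2d22f3_nt.GowersNorms.inv_of (inv_C hS)) hx hx0 h1, h2⟩

theorem rare_none {s : ℤ} (hs : s = 1 ∨ s = -1) {U : Set ℤ} (hU : Invariant U) (h : Rare s U) :
    ∀ x ∈ U, ¬ 0 < s * x := by
  intro x hx hx0
  obtain ⟨ρ, hρ, hd⟩ := density_pos hs hU ⟨x, hx, hx0⟩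
  obtain ⟨r, ψ, hψ, hf⟩ := h
  obtain ⟨κ, hκ, N₀, hN₀⟩ := Pool.Agent.V11270.CZ.ipstar r ρ hρ
  have h1 : ∀ᶠ N : ℕ in atTop, ψ N < κ := (tendsto_order.1 hψ).2 κ hκ
  obtain ⟨N, ⟨G, c, hG, hc, hcount⟩, h3, h4⟩ :=
    (hf.and_eventually (h1.and (eventually_ge_atTop (N₀ + 1)))).exists
  have hNp : (0 : ℝ) < N := by exact_mod_cast (by omega : 0 < N)
  have hlt : ψ N * N < κ * N := mul_lt_mul_of_pos_right h3 hNp
  have h5 := hN₀ s hs U (inv_C hU) ρ hd le_rfl N (by omega) c (hc.trans hlt.le) G hG
  have h6 : (hits s U c N G : ℝ) = ((Pool.Agent.V11270.CZ.Common s U c N G).ncard : ℝ) := rfl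
  linarith

/-- (A) Every invariant set `S` which contains an integer of sign `s` has a positive natural density
among the integers of sign `s`.
(B) For all `r` and `β > 0` there are `κ > 0` and `N₀` such that for both signs `s`, every invariant
set `S` with density at least `β` among the integers of sign `s`, every `N ≥ N₀`, every integer `h`
with `|h| ≤ κ N` and every set `G` which is IP-star of rank `r`, at least `κ N` of the `m ≤ N` are in
`G` and satisfy `s m + h ∈ S`.
(C) (Furstenberg-Katznelson theorem in shifted invariant sets.) For all `l` and `δ > 0` there is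
`η > 0`, and for every `β > 0` there are `κ > 0` and `N₀`, such that for all `s`, `S`, `N`, `h` as in
(B), every dimension `e`, every `A ⊆ ℤ^e` of upper Banach density at least `δ` (see `UpperDensity`) and
every family of `l + 1` points `F t` of `ℤ^e`: at least `κ N` of the `m ≤ N` are such that
`s m + h ∈ S` and the set of the `a` with `a + m F t ∈ A` for all `t` has upper Banach density at
least `η`.
(D) (Multiple recurrence at times in shifted invariant sets.) For all `l` and `δ > 0` there is
`η > 0`, and for every `β > 0` there are `κ > 0` and `N₀`, such that for all `s`, `S`, `N`, `h` as in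
(B), every action of a commutative monoid on a probability space by measure preserving
transformations, every measurable set `A` of measure at least `δ` and every family of `l + 1`
elements `F t` of the monoid: at least `κ N` of the `m ≤ N` are such that `s m + h ∈ S` and the set of
the `x` with `act (m F t) x ∈ A` for all `t` has measure at least `η`.
(E) An invariant set which is rare in the sense of `Rare`, for the sign `s`, contains no integer of
sign `s`. If for both signs the set of the integers whose trajectory enters an unknown cycle is rare,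
then all cycles are known. -/
theorem result :
    (∀ s : ℤ, (s = 1 ∨ s = -1) → ∀ S : Set ℤ, Invariant S → (∃ x ∈ S, 0 < s * x) →
      ∃ ρ : ℝ, 0 < ρ ∧ HasDensity s S ρ) ∧
    (∀ (r : ℕ) (β : ℝ), 0 < β → ∃ κ : ℝ, 0 < κ ∧ ∃ N₀ : ℕ, ∀ s : ℤ, (s = 1 ∨ s = -1) →
      ∀ S : Set ℤ, Invariant S → ∀ ρ : ℝ, HasDensity s S ρ → β ≤ ρ → ∀ N : ℕ, N₀ ≤ N →
      ∀ h : ℤ, |(h : ℝ)| ≤ κ * N → ∀ G : Set ℕ, IPStar r G → κ * N ≤ hits s S h N G) ∧
    (∀ (l : ℕ) (δ : ℝ), 0 < δ → ∃ η : ℝ, 0 < η ∧ ∀ β : ℝ, 0 < β →
      ∃ κ : ℝ, 0 < κ ∧ ∃ N₀ : ℕ, ∀ s : ℤ, (s = 1 ∨ s = -1) →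
      ∀ S : Set ℤ, Invariant S → ∀ ρ : ℝ, HasDensity s S ρ → β ≤ ρ → ∀ N : ℕ, N₀ ≤ N →
      ∀ h : ℤ, |(h : ℝ)| ≤ κ * N → ∀ (e : ℕ) (A : Set (Fin e → ℤ)), UpperDensity A δ →
      ∀ F : Fin (l + 1) → Fin e → ℤ,
        κ * N ≤ hits s S h N {m | UpperDensity {a | ∀ t, a + (m : ℤ) • F t ∈ A} η}) ∧
    (∀ (l : ℕ) (δ : ℝ), 0 < δ → ∃ η : ℝ, 0 < η ∧ ∀ β : ℝ, 0 < β →
      ∃ κ : ℝ, 0 < κ ∧ ∃ N₀ : ℕ, ∀ s : ℤ, (s = 1 ∨ s = -1) →
      ∀ S : Set ℤ, Invariant S → ∀ ρ : ℝ, HasDensity s S ρ → β ≤ ρ → ∀ N : ℕ, N₀ ≤ N →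
      ∀ h : ℤ, |(h : ℝ)| ≤ κ * N → ∀ (M : Type) [AddCommMonoid M] (X : Type) [MeasurableSpace X]
        (μ : Measure X) [IsProbabilityMeasure μ] (act : M → X → X), PreservingAction μ act →
      ∀ A : Set X, MeasurableSet A → δ ≤ μ.real A → ∀ F : Fin (l + 1) → M,
        κ * N ≤ hits s S h N {m | η ≤ μ.real {x | ∀ t, act (m • F t) x ∈ A}}) ∧
    (∀ s : ℤ, (s = 1 ∨ s = -1) → ∀ U : Set ℤ, Invariant U → Rare s U → ∀ x ∈ U, ¬ 0 < s * x) ∧
    ((∀ s : ℤ, (s = 1 ∨ s = -1) → Rare s Other) →
      ∀ x : ℤ, (∃ p : ℕ, 1 ≤ p ∧ T^[p] x = x) → x ∈ Known) := by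
  refine ⟨fun s hs S hS hne => density_pos hs hS hne, ?_, ?_, ?_,
    fun s hs U hU h => rare_none hs hU h, ?_⟩
  · intro r β hβ
    obtain ⟨κ, hκ, N₀, h⟩ := Pool.Agent.V11270.CZ.ipstar r β hβ
    exact ⟨κ, hκ, N₀, fun s hs S hS ρ hρ hβρ N hN c hc G hG =>
      h s hs S (inv_C hS) ρ hρ hβρ N hN c hc G hG⟩
  · intro l δ hδ
    obtain ⟨r, η, hη, h1⟩ := Pool.Agent.V11270.CZ.dense_ipstar l δ hδ
    refine ⟨η, hη, fun β hβ => ?_⟩
    obtain ⟨κ, hκ, N₀, h⟩ := Pool.Agent.V11270.CZ.ipstar r β hβ
    exact ⟨κ, hκ, N₀, fun s hs S hS ρ hρ hβρ N hN c hc e A hA F =>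
      h s hs S (inv_C hS) ρ hρ hβρ N hN c hc _ (h1 e A hA F)⟩
  · intro l δ hδ
    obtain ⟨r, η, hη, h1⟩ := Pool.Agent.V11270.CZ.meas_ipstar l δ hδ
    refine ⟨η, hη, fun β hβ => ?_⟩
    obtain ⟨κ, hκ, N₀, h⟩ := Pool.Agent.V11270.CZ.ipstar r β hβ
    exact ⟨κ, hκ, N₀, fun s hs S hS ρ hρ hβρ N hN c hc M _ X _ μ _ act hact A hA hμ F =>
      h s hs S (inv_C hS) ρ hρ hβρ N hN c hc _ (h1 M X μ act hact.1 hact.2 A hA hμ F)⟩
  · rintro h x ⟨p, hp, hx⟩
    by_contra hcon
    have hO : x ∈ Other := ⟨0, p, hp, hx, hcon⟩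
    have hx0 : x ≠ 0 := by
      rintro rfl
      exact hcon (by decide)
    rcases lt_or_gt_of_ne hx0 with h1 | h1
    · exact rare_none (Or.inr rfl) other_inv (h (-1) (Or.inr rfl)) x hO (by omega)
    · exact rare_none (Or.inl rfl) other_inv (h 1 (Or.inl rfl)) x hO (by omega)

end Pool.Agent.Results.MP_edb5be_nt.SzemerediInBasins
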