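import Mathlib
import Pool.Agent.V11270.CZ.WarD

set_option autoImplicit false

/-!
# Waring's theorem with variables in the basins of the cycles of the 3x+1 map

Let `S` be a set of integers which is invariant under the 3x+1 map and its inverse, for example the
basin of a cycle, with density at least `β > 0` among the integers of sign `σ`. Then every large
integer is a sum of `H` numbers `x ^ k`, where the `x` are positive integers with `σ x ∈ S`; both `H`
and the bound for the large integers depend only on `k` and `β`. For additive equations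
`P_1(x_1) + ... + P_m(x_m) = n` with polynomials of the same degree `k`, and many variables `x_i ≤ X`,
the number of the solutions with variables in given invariant sets is the number of all solutions
times the product of the densities, up to `ε X ^ (m - k)`, uniformly in `n`.

So all cycles are known if and only if, for both signs, for every `H` there are arbitrarily large
integers which are not a sum of `H` numbers `x ^ k` with `σ x` in the union of the basins of the
unknown cycles.

Method. The invariant sets are orthogonal to polynomial phases, uniformly (part A of the starting file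
`GowersNorms` of MP_2d22f3_nt), and the Weyl sums have bounded moments (starting file
`Pool/Agent/H373R2/NB/WeylSum.lean`). For the theorem of Waring: by the moments the sums of `t`
powers have positive lower density; elements of the invariant set divisible, or not divisible, by given
primes are used to find two consecutive sums; then Schnirelmann's theorem (starting file
`Pool/Agent/W851/Had/Schn.lean`).
-/

namespace Pool.Agent.Results.MP_edb5be_nt.WaringInBasins

open Filter Topology

/-- The 3x+1 map on the integers. -/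
def T (x : ℤ) : ℤ := if x % 2 = 0 then x / 2 else (3 * x + 1) / 2

/-- `S` is invariant under `T` and its inverse, for example the set of the integers whose trajectory
enters a given cycle. -/
def Invariant (S : Set ℤ) : Prop := ∀ x : ℤ, x ∈ S ↔ T x ∈ S

/-- Among the integers of sign `s` the set `S` has natural density `δ`. -/
def HasDensity (s : ℤ) (S : Set ℤ) (δ : ℝ) : Prop :=
  Tendsto (fun N : ℕ => ({n : ℤ | 0 < s * n ∧ s * n ≤ N ∧ n ∈ S}.ncard : ℝ) / N) atTop (𝓝 δ)

/-- The number of the solutions of `P_1(x_1) + ... + P_m(x_m) = n` in integers `1 ≤ x_i ≤ X` such that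
`σ_i x_i` is in `S_i` for all `i`. -/
noncomputable def solutions {m : ℕ} (P : Fin m → Polynomial ℤ) (σ : Fin m → ℤ) (S : Fin m → Set ℤ)
    (X : ℕ) (n : ℤ) : ℕ :=
  {x : Fin m → ℕ | (∀ i, 1 ≤ x i ∧ x i ≤ X) ∧ ∑ i, (P i).eval (x i : ℤ) = n ∧
    ∀ i, σ i * (x i : ℤ) ∈ S i}.ncard

/-- `N` is a sum of `H` numbers `x ^ k`, where the `x` are positive integers with `σ x ∈ S`. -/
def SumOfPowers (k H : ℕ) (σ : ℤ) (S : Set ℤ) (N : ℕ) : Prop :=
  ∃ x : Fin H → ℕ, (∀ i, 1 ≤ x i ∧ σ * (x i : ℤ) ∈ S) ∧ ∑ i, x i ^ k = N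

/-- The union of the five known cycles. -/
def Known : Finset ℤ := {1, 2, 0, -1, -5, -7, -10, -17, -25, -37, -55, -82, -41, -61, -91, -136,
  -68, -34}

/-- The integers whose trajectory enters a cycle other than the five known ones. -/
def Other : Set ℤ :=
  {x | ∃ j p : ℕ, 1 ≤ p ∧ T^[p] (T^[j] x) = T^[j] x ∧ T^[j] x ∉ Known}

/-! ### proofs -/

theorem known_closed : ∀ x ∈ Known, T x ∈ Known := by decide

theorem known_iter (j : ℕ) : ∀ x ∈ Known, T^[j] x ∈ Known := by
  induction j with
  | zero => intro x hx; exact hx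
  | succ j ih => intro x hx; rw [Function.iterate_succ_apply]; exact ih _ (known_closed x hx)

theorem other_inv : Invariant Other := by
  intro x
  constructor
  · rintro ⟨j, p, hp, h1, h2⟩
    cases j with
    | zero =>
      refine ⟨0, p, hp, ?_, ?_⟩
      · change T^[p] (T x) = T x
        rw [← Function.iterate_succ_apply, Function.iterate_succ_apply']
        exact congrArg T h1
      · intro h3
        apply h2
        change T x ∈ Known at h3
        change x ∈ Known
        have h4 := known_iter (p - 1) _ h3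
        rw [← Function.iterate_succ_apply, show (p - 1).succ = p by omega] at h4
        have h5 : T^[p] x = x := h1
        rwa [h5] at h4
    | succ j =>
      rw [Function.iterate_succ_apply] at h1 h2
      exact ⟨j, p, hp, h1, h2⟩
  · rintro ⟨j, p, hp, h1, h2⟩
    exact ⟨j + 1, p, hp, by rw [Function.iterate_succ_apply]; exact h1,
      by rw [Function.iterate_succ_apply]; exact h2⟩

theorem inv_C {S : Set ℤ} (hS : Invariant S) :
    Pool.Agent.Results.MP_2d22f3_nt.GowersNorms.Invariant S := by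
  intro x
  unfold Pool.Agent.Results.MP_2d22f3_nt.GowersNorms.C
  by_cases h : x % 2 = 0
  · rw [if_pos h]
    have := hS x
    unfold T at this
    rwa [if_pos h] at this
  · rw [if_neg h]
    have h1 := hS x
    have h2 := hS (3 * x + 1)
    have h3 : (3 * x + 1) % 2 = 0 := by omega
    unfold T at h1 h2
    rw [if_neg h] at h1
    rw [if_pos h3] at h2
    rw [h1, h2]

theorem density_pos {s : ℤ} (hs : s = 1 ∨ s = -1) {S : Set ℤ} (hS : Invariant S)
    (hne : ∃ x ∈ S, 0 < s * x) : ∃ ρ : ℝ, 0 < ρ ∧ HasDensity s S ρ := by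
  obtain ⟨ρ, h1, h2⟩ := Pool.Agent.Results.MP_2d22f3_nt.GowersNorms.HD_iff hs (inv_C hS)
  obtain ⟨x, hx, hx0⟩ := hne
  exact ⟨ρ, Pool.Agent.H499R2.ND.one_pos hs
    (Pool.Agent.Results.MP_2d22f3_nt.GowersNorms.inv_of (inv_C hS)) hx hx0 h1, h2⟩

theorem density_mem {s : ℤ} (hs : s = 1 ∨ s = -1) {S : Set ℤ} {δ : ℝ} (h : HasDensity s S δ) :
    0 ≤ δ ∧ δ ≤ 1 := by
  constructor
  · exact ge_of_tendsto' h (fun N => by positivity)
  · refine le_of_tendsto' h (fun N => ?_)
    apply div_le_one_of_le₀ _ (Nat.cast_nonneg _)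
    have h1 : {n : ℤ | 0 < s * n ∧ s * n ≤ N ∧ n ∈ S} ⊆
        (((Finset.Icc 1 N).image (fun n : ℕ => s * (n : ℤ)) : Finset ℤ) : Set ℤ) := by
      rintro n ⟨h1, h2, -⟩
      rw [Finset.mem_coe, Finset.mem_image]
      rcases hs with rfl | rfl
      · exact ⟨n.toNat, by rw [Finset.mem_Icc]; omega, by omega⟩
      · exact ⟨(-n).toNat, by rw [Finset.mem_Icc]; omega, by omega⟩
    have h2 := Set.ncard_le_ncard h1 (Finset.finite_toSet _)
    rw [Set.ncard_coe_finset] at h2
    have h3 : ((Finset.Icc 1 N).image (fun n : ℕ => s * (n : ℤ))).card ≤ N := by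
      refine Finset.card_image_le.trans ?_
      simp
    exact_mod_cast h2.trans h3

/-- (A) (Additive equations.) Let `PP` be a finite set of integer polynomials of the same degree
`k ≥ 1`. There is `m₀` such that for all `m ≥ m₀` and `ε > 0` there is `X₀` such that for all
polynomials `P_1, ..., P_m` in `PP`, all signs `σ_i`, all invariant sets `S_i`, whose densities among
the integers of sign `σ_i` are `ρ_i`, all `X ≥ X₀` and all integers `n`: the number of the solutions of
`P_1(x_1) + ... + P_m(x_m) = n` with `1 ≤ x_i ≤ X` and `σ_i x_i ∈ S_i` differs from `ρ_1 ... ρ_m` times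
the number of all solutions with `1 ≤ x_i ≤ X` by at most `ε X ^ (m - k)`.
(B) (Waring's theorem.) For all `k ≥ 1` and `β > 0` there are `H` and `N₁` such that for both signs
`σ` and every invariant set `S` with density at least `β` among the integers of sign `σ`, every
`N ≥ N₁` is a sum of `H` numbers `x ^ k` with positive integers `x` such that `σ x ∈ S`.
(C) So for every invariant set `S` which contains an integer of sign `σ` and every `k ≥ 1` there is
`H` such that every large integer is a sum of `H` numbers `x ^ k` with positive `x`, `σ x ∈ S`.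
(D) Let `k ≥ 1`. All cycles are known if and only if for both signs `σ` and every `H` there are
arbitrarily large integers which are not a sum of `H` numbers `x ^ k`, where the `x` are positive and
the trajectory of `σ x` enters an unknown cycle. -/
theorem result :
    (∀ (PP : Finset (Polynomial ℤ)) (k : ℕ), 1 ≤ k → (∀ P ∈ PP, P.natDegree = k) →
      ∃ m₀ : ℕ, k ≤ m₀ ∧ ∀ m : ℕ, m₀ ≤ m → ∀ ε : ℝ, 0 < ε → ∃ X₀ : ℕ,
      ∀ P : Fin m → Polynomial ℤ, (∀ i, P i ∈ PP) → ∀ σ : Fin m → ℤ, (∀ i, σ i = 1 ∨ σ i = -1) →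
      ∀ S : Fin m → Set ℤ, (∀ i, Invariant (S i)) → ∀ ρ : Fin m → ℝ,
      (∀ i, HasDensity (σ i) (S i) (ρ i)) → ∀ X : ℕ, X₀ ≤ X → ∀ n : ℤ,
        |(solutions P σ S X n : ℝ) - (∏ i, ρ i) * solutions P σ (fun _ => Set.univ) X n| ≤
          ε * (X : ℝ) ^ (m - k)) ∧
    (∀ (k : ℕ), 1 ≤ k → ∀ β : ℝ, 0 < β → ∃ H N₁ : ℕ, ∀ σ : ℤ, (σ = 1 ∨ σ = -1) →
      ∀ S : Set ℤ, Invariant S → ∀ ρ : ℝ, HasDensity σ S ρ → β ≤ ρ → ∀ N : ℕ, N₁ ≤ N →
        SumOfPowers k H σ S N) ∧
    (∀ k : ℕ, 1 ≤ k → ∀ σ : ℤ, (σ = 1 ∨ σ = -1) → ∀ S : Set ℤ, Invariant S →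
      (∃ x ∈ S, 0 < σ * x) → ∃ H : ℕ, ∀ᶠ N : ℕ in atTop, SumOfPowers k H σ S N) ∧
    (∀ k : ℕ, 1 ≤ k → ((∀ x : ℤ, (∃ p : ℕ, 1 ≤ p ∧ T^[p] x = x) → x ∈ Known) ↔
      ∀ σ : ℤ, (σ = 1 ∨ σ = -1) → ∀ H : ℕ, ∃ᶠ N : ℕ in atTop, ¬ SumOfPowers k H σ Other N)) := by
  have hC : ∀ k : ℕ, 1 ≤ k → ∀ σ : ℤ, (σ = 1 ∨ σ = -1) → ∀ S : Set ℤ, Invariant S →
      (∃ x ∈ S, 0 < σ * x) → ∃ H : ℕ, ∀ᶠ N : ℕ in atTop, SumOfPowers k H σ S N := by
    intro k hk σ hσ S hS hne
    obtain ⟨ρ, hρ, hd⟩ := density_pos hσ hS hne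
    obtain ⟨H, N₁, h⟩ := Pool.Agent.V11270.CZ.War.waring k hk ρ hρ
    refine ⟨H, eventually_atTop.2 ⟨N₁, fun N hN => h σ hσ S (inv_C hS) ρ hd le_rfl N hN⟩⟩
  refine ⟨?_, ?_, hC, ?_⟩
  · intro PP k hk hPP
    obtain ⟨m₀, hm₀, h⟩ := Pool.Agent.V11270.CZ.War.trans PP k hk hPP
    refine ⟨m₀, hm₀, fun m hm ε hε => ?_⟩
    obtain ⟨X₀, h1⟩ := h m hm ε hε
    exact ⟨X₀, fun P hP σ hσ S hS ρ hρ X hX n => h1 P hP σ hσ S (fun i => inv_C (hS i)) ρ
      (fun i => hρ i) (fun i => density_mem (hσ i) (hρ i)) X hX n⟩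
  · intro k hk β hβ
    obtain ⟨H, N₁, h⟩ := Pool.Agent.V11270.CZ.War.waring k hk β hβ
    exact ⟨H, N₁, fun σ hσ S hS ρ hρ hβρ N hN => h σ hσ S (inv_C hS) ρ hρ hβρ N hN⟩
  · intro k hk
    constructor
    · intro hall σ hσ H
      have hO : ∀ x : ℤ, x ∉ Other := by
        rintro x ⟨j, p, hp, h1, h2⟩
        exact h2 (hall _ ⟨p, hp, h1⟩)
      have hno : ∀ N : ℕ, 1 ≤ N → ¬ SumOfPowers k H σ Other N := by
        rintro N hN ⟨x, hx, hs⟩
        rcases Nat.eq_zero_or_pos H with h0 | h0
        · subst h0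
          simp at hs
          omega
        · exact hO _ (hx ⟨0, h0⟩).2
      exact (eventually_atTop.2 ⟨1, hno⟩).frequently
    · rintro h x ⟨p, hp, hx⟩
      by_contra hcon
      have hO : x ∈ Other := ⟨0, p, hp, hx, hcon⟩
      have hx0 : x ≠ 0 := by
        rintro rfl
        exact hcon (by decide)
      have key : ∀ σ : ℤ, (σ = 1 ∨ σ = -1) → ¬ 0 < σ * x := by
        intro σ hσ hpos
        obtain ⟨H, hH⟩ := hC k hk σ hσ Other other_inv ⟨x, hO, hpos⟩
        obtain ⟨N, h1, h2⟩ := ((h σ hσ H).and_eventually hH).exists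
        exact h1 h2
      rcases lt_or_gt_of_ne hx0 with h1 | h1
      · exact key (-1) (Or.inr rfl) (by omega)
      · exact key 1 (Or.inl rfl) (by omega)

end Pool.Agent.Results.MP_edb5be_nt.WaringInBasins
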